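import Pool.Agent.R901.SU.Klein
import Pool.Agent.R901.SU.Toy

/-!
# The Stolz index map for proper actions is not injective for the group `ℤ/2 × ℤ/2`

Let `Γ` be a finite group. Then `EΓ` (for proper actions) is a point, a proper cocompact `Γ`-manifold is a
compact manifold with an action of `Γ`, and the question is whether

  `Θ : R_n^spin(pt)^Γ[B⁻¹] → KO_n(C*_r(Γ; ℝ))`

is an isomorphism. The answer is no for `Γ = ℤ/2 × ℤ/2` and all `n` divisible by `8`.

**The reason.** Decompose a `Γ`-manifold `L` into the parts `L_K`, the unions of the components with a
generic stabilizer conjugate to `K`. An isometry which fixes an open subset of the boundary of a manifold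
pointwise fixes the component pointwise. So if the closed manifold `L₁ ∪ V ∪ L₂` is the boundary of `W`, then
`(L₁)_K ∪ V_K ∪ (L₂)_K` is the boundary of `W_K`, and `V_K` has a metric of positive scalar curvature. Hence
`L ↦ L_K` is well defined on `R_n`, and it is compatible with the product with the Bott manifold `B`. But
`Θ` does not see this decomposition. Let `A₁, A₂, A₃` be the subgroups of order two of
`Γ = ℤ/2 × ℤ/2`. The real permutation representations of the sets

  `S₁ = Γ ∪ pt ∪ pt`,  `S₂ = Γ/A₁ ∪ Γ/A₂ ∪ Γ/A₃`

are equivalent. So `Θ` has the same value on the manifolds `S₁` and `S₂` of dimension `0`, and on the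
manifolds `S₁ × B^k` and `S₂ × B^k` of dimension `8 k`. The parts with trivial generic stabilizer are
`Γ × B^k` and the empty manifold; their values under `Θ` are the regular representation and zero. So
the classes of `S₁ × B^k` and `S₂ × B^k` in `R_{8k}^spin(pt)^Γ[B⁻¹]` are different.

**The setting.** Spin manifolds, scalar curvature and the higher index are not in Mathlib. They are the
data of the question, and we work with them as follows.

* `Geometry` lists the notions in the definition of `R_n^spin(pt)^Γ` (Riemannian spin `Γ`-manifolds on actual
  topological spaces with an action of `Γ`, metrics of positive scalar curvature, the identifying pairs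
  `V`, `W` of (a) and (b), the product with `B`, finite sets as manifolds of dimension zero), and
  their elementary properties: they restrict to unions of components, the maps from `L₁` and `L₂` to `W`
  are injective, and an isometry of `W` which fixes an open subset of `L₁` or `L₂` fixes the component.
  `Lawful`: the product with `B` is well defined on classes, and two obvious isometries.
* From these data we define the triples, their identification by (a) and (b) (`Related`) and the
  direct limit `R n = R_n^spin(pt)^Γ[B⁻¹]` (for the injectivity of `Θ` its group structure plays no role).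
* `StolzMap`: `Θ` is a map on `R n`, as in the question. The only thing that we use of it is its value on
  `S × B^k`, for finite sets `S`: the permutation representation of `S`.

The decomposition above is proved (`Related.part`, `partR`), and no theorem on positive scalar
curvature or on the index is used. Part (3) says that the listed properties are consistent.
-/

set_option autoImplicit false

namespace Pool.Agent.Results.MP_8db816_gt.AFiniteGroups

open Pool.Agent.R901.SU

universe u v

/-- (1) Let `Γ` be a finite group and let `S`, `S'` be finite sets with an action of `Γ`. If `S × B^k` and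
`S' × B^k` have the same class in `R_{8k}^spin(pt)^Γ[B⁻¹]`, then `S` and `S'` have the same numbers of
points with stabilizers conjugate to `K`, for all subgroups `K`; but they have the same image under `Θ` if
and only if their real permutation representations are equivalent.
(2) For `Γ = ℤ/2 × ℤ/2` the map `Θ` is not injective, for all `n = 8 k`.
(3) The properties listed in `Geometry`, `Lawful` and `StolzMap` are consistent. -/
theorem result :
    (∀ (Γ : Type) [Group Γ] [Finite Γ] (𝒢 : Geometry.{u} Γ), 𝒢.Lawful →
      ∀ (Θ : StolzMap.{u, v} 𝒢) (S S' : Type) [Finite S] [MulAction Γ S] [Finite S']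
        [MulAction Γ S'] (k : ℕ),
      (𝒢.cl ((𝒢.ofSet S).bottPow k) = 𝒢.cl ((𝒢.ofSet S').bottPow k) → ∀ K : Subgroup Γ,
        Nat.card (OrbitType Γ S K) = Nat.card (OrbitType Γ S' K)) ∧
      (Θ.theta (Geometry.dim 0 k) (𝒢.cl ((𝒢.ofSet S).bottPow k)) =
          Θ.theta (Geometry.dim 0 k) (𝒢.cl ((𝒢.ofSet S').bottPow k)) ↔
        RepEquiv (permRep Γ S) (permRep Γ S'))) ∧
    (∀ 𝒢 : Geometry.{u} Klein, 𝒢.Lawful → ∀ (Θ : StolzMap.{u, v} 𝒢) (k : ℕ),
      ¬ Function.Injective (Θ.theta (Geometry.dim 0 k))) ∧
    (∀ (Γ : Type) [Group Γ] [Finite Γ],
      ∃ 𝒢 : Geometry.{0} Γ, 𝒢.Lawful ∧ Nonempty (StolzMap.{0, 0} 𝒢)) :=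
  ⟨fun _ _ _ _ h𝒢 Θ _ _ _ _ _ _ k =>
      ⟨fun h K => StolzMap.card_eq_of_cl_eq Θ h𝒢 k h K, StolzMap.theta_eq_iff Θ k⟩,
    fun _ h𝒢 Θ k => not_injective h𝒢 Θ k,
    fun Γ _ _ => ⟨toy Γ, toy_lawful Γ, ⟨toyMap Γ⟩⟩⟩

end Pool.Agent.Results.MP_8db816_gt.AFiniteGroups
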